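import Pool.Agent.Q216.PD.Stm
import Pool.Agent.Y34.EL.All
import Pool.Agent.Y975.EL.Close

/-!
# Project PD (helper216), job RK
-/

set_option autoImplicit false

universe u v

open Metric Set Filter Topology
open Pool.Agent.TH60.FP Pool.Agent.Y34.HB Pool.Agent.Y34.EL

namespace Pool.Agent.Q68.PD

open Pool.Agent.Q216.PD

/-- Stewart's inequality for two geodesics with a common end -/
lemma near {X : Type u} [MetricSpace X] [ProperSpace X] (hS : S_STEW.{u}) (hX : CN X)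
    {o o₁ P a w : X} {T ε L : ℝ} (hT : 0 < T) (hε : 0 < ε) (ho : dist o₁ o ≤ ε)
    (ha1 : dist a o = T) (ha2 : dist a P = L - T) (hL : dist o P = L) (hLT : 2 * T + ε ≤ L)
    (hw : On o₁ P T w) : dist a w ^ 2 ≤ 4 * T * ε + 2 * ε ^ 2 := by
  obtain ⟨D, hD⟩ : ∃ D, D = dist o₁ P := ⟨_, rfl⟩
  have h1 := (hS X hX).2.2 o₁ P T w hw a
  rw [ha2, ← hD] at h1
  have h2 : dist a o₁ ≤ T + ε := by
    have := dist_triangle a o o₁
    rw [dist_comm o o₁] at this
    linarith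
  have h3 : L ≤ D + ε := by
    have := dist_triangle o o₁ P
    rw [dist_comm o o₁, hL, ← hD] at this
    linarith
  have h4 : D ≤ L + ε := by
    have := dist_triangle o₁ o P
    rw [hL, ← hD] at this
    linarith
  have hDT : 2 * T ≤ D := by linarith
  have hD0 : 0 < D := by linarith
  have h5 : dist a o₁ ^ 2 ≤ (T + ε) ^ 2 := pow_le_pow_left₀ dist_nonneg h2 2
  have h6 : (L - T) ^ 2 ≤ (D - T + ε) ^ 2 := pow_le_pow_left₀ (by linarith) (by linarith) 2
  have h7 : (D - T) * dist a o₁ ^ 2 ≤ (D - T) * (T + ε) ^ 2 :=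
    mul_le_mul_of_nonneg_left h5 (by linarith)
  have h8 : T * (L - T) ^ 2 ≤ T * (D - T + ε) ^ 2 := mul_le_mul_of_nonneg_left h6 hT.le
  have h9 : (D - T) * (T + ε) ^ 2 + T * (D - T + ε) ^ 2 - T * (D - T) * D =
      (D - T) * (4 * T * ε + ε ^ 2) + T * ε ^ 2 := by ring
  have h10 : (D - T) * (4 * T * ε + ε ^ 2) + T * ε ^ 2 ≤ D * (4 * T * ε + 2 * ε ^ 2) := by
    have e1 : 0 ≤ T * (4 * T * ε + ε ^ 2) := by positivity
    have e2 : T * ε ^ 2 ≤ D * ε ^ 2 := mul_le_mul_of_nonneg_right (by linarith) (by positivity)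
    nlinarith
  have h11 : D * dist a w ^ 2 ≤ D * (4 * T * ε + 2 * ε ^ 2) := by linarith
  exact le_of_mul_le_mul_left h11 hD0

theorem t_rk : S_RK.{u, v} := by
  intro X _ _ G _ _ _ hX g τ c hτ hA hHP
  obtain ⟨R0, T, hT, hRO0⟩ := t_ro.{u} X hX c hA.1 hHP
  obtain ⟨R, hRdef⟩ : ∃ R : ℝ, R = max R0 0 := ⟨_, rfl⟩
  have hR : 0 ≤ R := hRdef ▸ le_max_right _ _
  have hRR : R0 ≤ R := hRdef ▸ le_max_left _ _
  have hRO : ∀ p q : X, T ≤ dist (c 0) p → T ≤ dist (c 0) q →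
      (∀ y, On (c 0) p T y → dist y (c (-T)) ≤ 1) → (∀ y, On (c 0) q T y → dist y (c T) ≤ 1) →
      ∃ m, dist p m + dist m q = dist p q ∧ dist (c 0) m ≤ R := by
    intro p q a1 a2 a3 a4
    obtain ⟨m, b1, b2⟩ := hRO0 p q a1 a2 a3 a4
    exact ⟨m, b1, b2.trans hRR⟩
  have hTR : 0 ≤ T * R := by positivity
  obtain ⟨ε, hεd⟩ : ∃ ε : ℝ, ε = 1 / (128 * (T + 1)) := ⟨_, rfl⟩
  have hε : 0 < ε := by rw [hεd]; positivity
  have hεT : ε * (T + 1) = 1 / 128 := by rw [hεd]; field_simp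
  have hε1 : ε ≤ 1 / 128 := by nlinarith
  obtain ⟨N, hN⟩ := exists_nat_ge ((4 * T * R + 8 * T + 4 * R + 8) / τ)
  refine ⟨T, ε, N, hε, fun h hh n hn x hx => ?_⟩
  have hL0 : 4 * T * R + 8 * T + 4 * R + 8 ≤ n * τ := by
    rw [div_le_iff₀ hτ] at hN
    have : (N : ℝ) * τ ≤ n * τ := by gcongr
    linarith
  obtain ⟨L, hL⟩ : ∃ L : ℝ, L = n * τ := ⟨_, rfl⟩
  rw [← hL] at hL0
  have hgo : g ^ n • c 0 = c L := by
    rw [hL]; exact Pool.Agent.Y975.EL.Close.axis_pow hA n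
  have hgi : (g ^ n)⁻¹ • c 0 = c (-L) := by
    rw [hL, ← inv_pow]; exact Pool.Agent.Y975.EL.Close.axis_inv hA n
  have hd : ∀ s t : ℝ, dist (c s) (c t) = |s - t| := fun s t => by
    rw [hA.1.dist_eq, Real.dist_eq]
  have hho : dist (c 0) (h • c 0) ≤ ε := hh _ (mem_closedBall_self hT.le)
  obtain ⟨g', hg'⟩ : ∃ g' : G, g' = g ^ n * h := ⟨_, rfl⟩
  rw [← hg'] at hx
  have hp : dist (g' • c 0) (c L) ≤ ε := by
    rw [hg', mul_smul, ← hgo, dist_smul, dist_comm]
    exact hho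
  have hcL : dist (c 0) (c L) = L := by
    rw [hd, zero_sub, abs_neg, abs_of_nonneg (by linarith)]
  have hcL' : dist (c 0) (c (-L)) = L := by
    rw [hd, zero_sub, neg_neg, abs_of_nonneg (by linarith)]
  have hdo : L - ε ≤ dist (c 0) (g' • c 0) := by
    have := dist_triangle (c 0) (g' • c 0) (c L)
    rw [hcL] at this
    linarith
  have hTε : 4 * T * ε ≤ 1 / 32 := by nlinarith
  have hb : ∀ y, On (c 0) (g' • c 0) T y → dist y (c T) ≤ 1 / 2 := by
    intro y hy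
    have hq : On (c 0) (c L) T (c T) := by
      refine ⟨?_, ?_⟩
      · rw [hd, zero_sub, abs_neg, abs_of_pos hT]
      · rw [hcL, hd, abs_sub_comm, abs_of_nonneg (by linarith)]
    have := Pool.Agent.Y975.EL.Close.close t_cmp.{u} hX hT hy hq hp (by linarith)
      (by rw [hcL]; linarith) (by linarith) (by rw [hcL]; linarith)
    linarith
  have hinv : g'⁻¹ • c 0 = h⁻¹ • c (-L) := by
    rw [hg', mul_inv_rev, mul_smul, hgi]
  have ha : ∀ y, On (c 0) (g'⁻¹ • c 0) T y → dist y (c (-T)) ≤ 1 / 2 := by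
    intro y hy
    rw [hinv] at hy
    have hw : On (h • c 0) (c (-L)) T (h • y) := by
      have e1 : dist (h • y) (c (-L)) = dist y (h⁻¹ • c (-L)) := by
        rw [← dist_smul h y (h⁻¹ • c (-L)), smul_inv_smul]
      have e2 : dist (h • c 0) (c (-L)) = dist (c 0) (h⁻¹ • c (-L)) := by
        rw [← dist_smul h (c 0) (h⁻¹ • c (-L)), smul_inv_smul]
      refine ⟨?_, ?_⟩
      · rw [dist_smul]; exact hy.1
      · rw [e1, e2]; exact hy.2
    have h1 := near t_stew.{u} hX (o := c 0) (a := c (-T)) (L := L) hT hε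
      (by rw [dist_comm]; exact hho)
      (by rw [hd, sub_zero, abs_neg, abs_of_pos hT])
      (by rw [hd, show -T - -L = L - T by ring, abs_of_nonneg (by linarith)]) hcL' (by linarith) hw
    have h2 : dist (c (-T)) (h • y) ≤ 1 / 4 := by
      refine le_of_sq_le_sq (h1.trans ?_) (by norm_num)
      nlinarith
    have h3 : dist y (h • y) ≤ ε := hh y (by
      rw [mem_closedBall, dist_comm]
      exact hy.1.le)
    have h4 := dist_triangle y (h • y) (c (-T))
    rw [dist_comm (h • y)] at h4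
    linarith
  have key := Pool.Agent.Y975.EL.Close.dir t_stew.{u} t_cmp.{u} hX hT hR hRO g' (by linarith) hb ha
  have hfix : ∀ k : ℕ, g' ^ k • x = x := by
    intro k
    induction k with
    | zero => simp
    | succ k ih => rw [pow_succ, mul_smul, hx, ih]
  have hbd : ∀ k : ℕ, dist (c 0) (g' ^ k • c 0) ≤ 2 * dist (c 0) x := by
    intro k
    have h1 := dist_triangle (c 0) x (g' ^ k • c 0)
    have h2 : dist x (g' ^ k • c 0) = dist x (c 0) := by
      conv_lhs => rw [← hfix k]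
      rw [dist_smul]
    rw [h2, dist_comm x] at h1
    linarith
  obtain ⟨k, hk⟩ := exists_nat_gt (2 * dist (c 0) x)
  have h1 := (key k).2.2
  have h2 := hbd (k + 1)
  have h3 : (1 : ℝ) ≤ dist (c 0) (g' • c 0) - 2 * R := by linarith
  have h4 : ((k : ℝ) + 1) * 1 ≤ (k + 1) * (dist (c 0) (g' • c 0) - 2 * R) :=
    mul_le_mul_of_nonneg_left h3 (by positivity)
  linarith

end Pool.Agent.Q68.PD
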